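import Pool.Agent.Helper65.HB.CHn

/-!
# Horospherically convex hypersurfaces of constant mean curvature in complex hyperbolic space (MP_b769bb_gt)

The unit ball of `ℂⁿ`, `n ≥ 2`, with the Bergman metric `g` is complex hyperbolic space `ℂHⁿ` (sectional curvature between
`-4` and `-1`).

`CMC g ρ H` (Helper75/ROT/St.lean): `ρ < 0` is a relatively compact domain of the ball, whose boundary `ρ = 0` is a connected
regular hypersurface of constant mean curvature `H`.  `meanCurv g ρ z` (Helper41/ALX/Metric.lean) is the trace of the shape
operator, for the metric `g` and the unit normal `∇ρ / |∇ρ|`, of the level hypersurface of `ρ` through `z`.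

`endC g ρ z` (Helper77/JH/StC.lean) is the end point on the unit sphere of the inner normal geodesic ray that starts at `z`, and
`HoroC b z p` says that `p` lies in the closed horoball with the centre `b` whose boundary contains `z`:
`|1 - ⟨p, b⟩|² / (1 - |p|²) ≤ |1 - ⟨z, b⟩|² / (1 - |z|²)`.  So `HoroC (endC g ρ z) z p` says that `p` lies in the closed
horoball that touches the hypersurface at `z` from the inner side.

Theorem.  Let `ρ = 0` be a compact connected embedded hypersurface of constant mean curvature, and let `p` be a point such
that for each `z` of the hypersurface the point `p` lies in the closed horoball which touches the hypersurface at `z` from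
the inner side.  Then the hypersurface is a geodesic sphere.

In particular every compact horospherically convex hypersurface of constant mean curvature is a geodesic sphere (then the
hypothesis holds for each `p` with `ρ p ≤ 0`).  The hypothesis also holds if, for some radius `r`, the point `p` lies in all the
balls of radius `r` that touch the hypersurface from the inner side.  There is no assumption on the symmetry of the
hypersurface, and none on the value of the mean curvature or on the other principal curvatures.

The proof is an integral identity of Jellett type: with `T` the difference of the shape operator and of that of a geodesic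
sphere of the same mean curvature, there is a tangential vector field, linear in `T`, with coefficients that depend on the
hermitian products of (the lift of) `p` with the position and with the unit normal, whose divergence is a quadratic form in
`T`; under the hypothesis on the horoballs this quadratic form is nonnegative and it vanishes only for `T = 0` (off the
point `p`).

The conclusion: `ρ < 0` is the ball and `ρ = 0` is the sphere of radius `R` and centre `c`, `coth R = lam`, where `lam > 1` is
given by `H = (2 n - 1) lam + lam⁻¹`; `coshSq c z = |1 - ⟨c, z⟩|² / ((1 - |c|²) (1 - |z|²))` is `cosh²` of the distance of `c`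
and `z`, and `cosh² R = (1 - lam⁻²)⁻¹`.
-/

set_option autoImplicit false

namespace Pool.Agent.Helper65.Old.HoroConvex

open Pool.Agent.Helper75.ROT Pool.Agent.Helper77.JE Pool.Agent.Helper77.JH

theorem resultOld (n : ℕ) (hn : 2 ≤ n)
    (g : EuclideanSpace ℂ (Fin n) → EuclideanSpace ℂ (Fin n) →L[ℝ] EuclideanSpace ℂ (Fin n))
    (hg : IsBergman g) (ρ : EuclideanSpace ℂ (Fin n) → ℝ) (H : ℝ) (hc : CMC g ρ H)
    (p : EuclideanSpace ℂ (Fin n)) (hp : ‖p‖ < 1)
    (hor : ∀ z ∈ Metric.ball (0 : EuclideanSpace ℂ (Fin n)) 1, ρ z = 0 →
      HoroC (endC g ρ z) z p) :
    ∃ (c : EuclideanSpace ℂ (Fin n)) (lam : ℝ), ‖c‖ < 1 ∧ 1 < lam ∧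
      H = (2 * n - 1) * lam + lam⁻¹ ∧
      ∀ z ∈ Metric.ball (0 : EuclideanSpace ℂ (Fin n)) 1,
        (ρ z < 0 ↔ coshSq c z * (1 - lam⁻¹ ^ 2) < 1) ∧
        (ρ z = 0 ↔ coshSq c z * (1 - lam⁻¹ ^ 2) = 1) := by
  have hgb : g = Pool.Agent.Helper41.ALX.bergman n := by
    funext z
    ext1 v
    exact hg z v
  subst hgb
  exact Pool.Agent.Helper65.HB.final_all hn hc hp hor

end Pool.Agent.Helper65.Old.HoroConvex
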