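import Pool.Agent.Helper77.JH.G1

/-!
# Alexandrov's theorem for horospherically convex hypersurfaces of quaternionic hyperbolic space (MP_b769bb_gt)

Quaternionic hyperbolic space `ℍHⁿ⁺¹`, `n ≥ 1`, is the unit ball of `HV n = ℍⁿ⁺¹` with the metric `ballMetric P`,
`|v|² / (1 - |z|²) + (⟪z, v⟫² + |z|² |P z v|²) / (1 - |z|²)²`, where `P z` is the projection on the span of `z i, z j, z k` (`IsPH P`,
Helper75/ROT/St.lean); the curvature is between `-4` and `-1`.

`CMC g ρ H` (Helper75/ROT/St.lean): `ρ < 0` is a relatively compact domain of the unit ball, whose boundary `ρ = 0` is a
connected regular hypersurface of class `C³` of constant mean curvature `H` for the metric `g`.  `meanCurv g ρ z`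
(Helper41/ALX/Metric.lean) is the trace of the shape operator, for the metric `g` and the unit normal `∇ρ / |∇ρ|`, of the level
hypersurface of `ρ` through `z`.  There is no assumption on the number `H`.

`hm a b = ∑ star a_j b_j` is the hermitian product.  `endH g ρ z` (Helper77/JH/St.lean) is the end point `b = lim exp_z (- t u)`,
`t → ∞`, `|b| = 1`, of the inner normal ray at the point `z` of the hypersurface (`u = unorH g ρ z` the outer unit normal), i.e. the
centre of the inner tangent horosphere at `z`.  `HoroH b z p` is the condition `|1 - ⟨p, b⟩|² (1 - |z|²) ≤ |1 - ⟨z, b⟩|² (1 - |p|²)`: the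
point `p` lies in the closed horoball with centre `b` whose boundary contains `z` (a sublevel set of the Busemann function).

Theorem.  If some point `p` of the ball lies in all closed inner tangent horoballs of the hypersurface, then the hypersurface is a
geodesic sphere: `|1 - ⟨c, z⟩|² / ((1 - |z|²) (1 - |c|²))` is `cosh²` of the distance of `z` and `c`.

A domain is called horospherically convex if it lies in the closed inner tangent horoball at each point of its boundary; then every
point `p` of the domain satisfies the hypothesis.  So the only horospherically convex domains whose boundary has constant mean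
curvature are the balls.  (More generally, a tangent ball is contained in the tangent horoball, so the hypothesis also holds if `p`
lies in all inner tangent balls of some radius.)

The proof is an integral identity of Jellett type.  In the hyperboloid model `h(x, x) = -1` of `ℍ^(n+1,1)` let `ν` be the unit normal,
`z = h(p, x)`, `ζ = h(p, ν)`, `lam` the number for which the mean curvature is that of a geodesic sphere of radius `arcoth lam` (it exists
by comparison at the farthest point of the hypersurface) and `T` the difference of the shape operator and of the operator which a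
geodesic sphere with the same normal would have.  There is a tangential vector field, linear in `T`, with coefficients which are
polynomials in `z`, `ζ`, whose divergence is a quadratic form in `T`: the derivatives of `T` cancel (they are totally symmetric and
trace free up to terms of order zero), and the terms of order one cancel too.  The condition on the horoballs is `|z - ζ| ≤ 1`, and
there the quadratic form is positive definite (except for `x = p`).  So `T = 0`, and the centre is constant.
-/

set_option autoImplicit false

namespace Pool.Agent.Helper65.Old.HoroConvexQuaternionic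

open Quaternion Pool.Agent.Helper41.ALX Pool.Agent.Helper75.ROT Pool.Agent.Helper77.JH

theorem resultOld (n : ℕ) (hn : 1 ≤ n) (P : HV n → HV n →L[ℝ] HV n) (hP : IsPH P) (ρ : HV n → ℝ) (H : ℝ)
    (hc : CMC (ballMetric P) ρ H) (p : HV n) (hp : ‖p‖ < 1)
    (hb : ∀ z ∈ Metric.ball (0 : HV n) 1, ρ z = 0 → HoroH (endH (ballMetric P) ρ z) z p) :
    ∃ (c : HV n) (R : ℝ), ‖c‖ < 1 ∧ 1 < R ∧ ∀ z ∈ Metric.ball (0 : HV n) 1,
      (ρ z < 0 ↔ ‖1 - hm c z‖ ^ 2 < R * (1 - ‖z‖ ^ 2) * (1 - ‖c‖ ^ 2)) ∧
      (ρ z = 0 ↔ ‖1 - hm c z‖ ^ 2 = R * (1 - ‖z‖ ^ 2) * (1 - ‖c‖ ^ 2)) :=
  finalH hn hP hc hp hb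

end Pool.Agent.Helper65.Old.HoroConvexQuaternionic
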