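import Pool.Agent.SPH.Uni
import Pool.Agent.SPH.UniF
import Pool.Agent.SPH.E6.Desc
import Pool.Agent.SPH.E7.Main
import Pool.Agent.SPH.E8.Main

/-!
MP_2ec7a7_al: the automorphism groups of the Artin groups of spherical type: `H3`, `H4`, `F4`,
`E6`, `E7`, `E8`.
-/

set_option autoImplicit false

namespace Pool.Agent.Helper65.Old.SphericalTypes

open Pool.Agent.SPH Pool.Agent.Helper7.AG

/-- the types -/
inductive SphTy
  | H3
  | H4
  | F4
  | E6
  | E7
  | E8

/-- The description of the automorphism group, the center, the outer automorphism group and the
extension, for each type (Mathlib's Coxeter matrices, `c` the product of the generators in their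
order).

`AutDesc M m`: the map `s ↦ s⁻¹` on the generators extends to an automorphism `ε` of order two;
every automorphism is `conj x` or `conj x * ε` with `x` in `A`; the two possibilities exclude each
other, and `x` is unique up to the powers of `z = c ^ m`, which form the center; the outer
automorphism group has order two, generated by the class of `ε`, and the extension splits.

`F4Desc`: there are automorphisms `T` (`s0, s1 ↦ s0 z, s1 z`, `s2, s3 ↦ s2 z⁻¹, s3 z⁻¹`, where
`z = c ^ 6`), `θ` (`si ↦ s(3-i)`), `ε` (`si ↦ si⁻¹`), with `θ² = ε² = 1`, `θ T θ = T⁻¹`, `ε`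
commuting with `T` and `θ`; every automorphism is `conj x * T ^ k * θ ^ u * ε ^ v` with unique `k`
(an integer), `u`, `v` in `{0, 1}`, and `x` unique up to the powers of `z`, which form the center;
the outer automorphism group is the product of the infinite dihedral group generated by the
classes of `T` and `θ` and of the group of order two generated by the class of `ε`, and the
extension splits. -/
def Desc : SphTy → Prop
  | .H3 => AutDesc CoxeterMatrix.H₃ 5
  | .H4 => AutDesc CoxeterMatrix.H₄ 15
  | .F4 => F4Desc
  | .E6 => AutDesc CoxeterMatrix.E₆ 12
  | .E7 => AutDesc CoxeterMatrix.E₇ 9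
  | .E8 => AutDesc CoxeterMatrix.E₈ 15

/-- The automorphism groups of the Artin groups of the types `H3`, `H4`, `F4`, `E6`, `E7`,
`E8`. -/
theorem resultOld : ∀ t : SphTy, Desc t := by
  intro t
  cases t
  · exact desc_H3
  · exact desc_H4
  · exact desc_F4
  · exact desc_E6
  · exact desc_E7
  · exact desc_E8

end Pool.Agent.Helper65.Old.SphericalTypes
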